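import Pool.Agent.R526.UT.Univ

set_option autoImplicit false

/-! # The number of moved primes in all short intervals -/

namespace Pool.Agent.R526.AD

open MeasureTheory ProbabilityTheory Filter Finset Topology Pool.Agent.R526.RS Pool.Agent.R526.UT

open scoped Classical

/-- the points -/
def pt (x j : ℕ) : ℕ := x + 1 + x % 2 + 2 * j

/-- the points of the blocks in `T` -/
def JT (x b : ℕ) (T : Finset ℕ) : Finset ℕ := (T ×ˢ range b).image (fun rs => pt x (rs.1 * b + rs.2))

theorem blk_lt {b r s r' s' : ℕ} (hs : s < b) (h : r * b + s = r' * b + s') : r' ≤ r := by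
  by_contra hc
  have h1 : (r + 1) * b ≤ r' * b := Nat.mul_le_mul_right b (by omega)
  have h2 : (r + 1) * b = r * b + b := by ring
  omega

theorem JT_card (x b : ℕ) (T : Finset ℕ) : (JT x b T).card = T.card * b := by
  unfold JT
  rw [card_image_of_injOn, card_product, card_range]
  rintro ⟨r, s⟩ h ⟨r', s'⟩ h' hh
  rw [mem_coe, mem_product, mem_range] at h h'
  simp only [pt] at hh h h'
  have h1 : r * b + s = r' * b + s' := by omega
  have h2 := blk_lt h.2 h1
  have h3 := blk_lt h'.2 h1.symm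
  have h4 : r = r' := by omega
  subst h4
  have h5 : s = s' := by omega
  rw [h5]

variable {Ω : Type} [MeasurableSpace Ω] (μ : Measure Ω) [IsProbabilityMeasure μ] {ξ : ℕ → Ω → ℕ}

/-- the elements in the interval -/
noncomputable def EE (ξ : ℕ → Ω → ℕ) (x h : ℕ) (ω : Ω) : ℕ :=
  ((Ioc x (x + h)).filter (fun m => ∃ p : ℕ, p.Prime ∧ ξ p ω = m)).card

theorem count_of (F : Finset ℕ) (hF : ∀ p ∈ F, p.Prime) (ω : Ω) (x b R h : ℕ) (h2 : 2 * (R * b) ≤ h)
    (hnot : ∀ T ⊆ range R, R ≤ 2 * T.card → ω ∉ Av ξ F (JT x b T)) : R ≤ 2 * EE ξ x h ω := by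
  set T₀ := (range R).filter (fun r => ∀ s < b, ∀ p ∈ F, ξ p ω ≠ pt x (r * b + s)) with hT₀
  set H := (range R).filter (fun r => ¬ ∀ s < b, ∀ p ∈ F, ξ p ω ≠ pt x (r * b + s)) with hH
  have h3 : T₀.card + H.card = R := by
    have := card_filter_add_card_filter_not (s := range R) (fun r => ∀ s < b, ∀ p ∈ F, ξ p ω ≠ pt x (r * b + s))
    rwa [card_range] at this
  have h4 : ¬ R ≤ 2 * T₀.card := by
    intro hc
    apply hnot T₀ (filter_subset _ _) hc
    rw [mem_Av]
    intro p hp hin
    unfold JT at hin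
    rw [mem_image] at hin
    obtain ⟨⟨r, s⟩, hrs, he⟩ := hin
    rw [mem_product, mem_range] at hrs
    rw [hT₀, mem_filter] at hrs
    exact hrs.1.2 s hrs.2 p hp he.symm
  have h5 : ∀ r ∈ H, ∃ s : ℕ, s < b ∧ ∃ p : ℕ, p.Prime ∧ ξ p ω = pt x (r * b + s) := by
    intro r hr
    rw [hH, mem_filter] at hr
    have := hr.2
    push Not at this
    obtain ⟨s, hs, p, hp, he⟩ := this
    exact ⟨s, hs, p, hF p hp, he⟩
  choose! g hg1 hg2 using h5
  have h6 : H.card ≤ EE ξ x h ω := by
    unfold EE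
    apply card_le_card_of_injOn (fun r => pt x (r * b + g r))
    · intro r hr
      have hr' := hr
      rw [mem_coe] at hr'
      obtain ⟨p, hp, he⟩ := hg2 r hr'
      have hgb := hg1 r hr'
      rw [hH, mem_filter, mem_range] at hr'
      have h7 : r * b + b ≤ R * b := by
        calc r * b + b = (r + 1) * b := by ring
          _ ≤ R * b := Nat.mul_le_mul_right b hr'.1
      rw [mem_coe, mem_filter, mem_Ioc]
      refine ⟨⟨?_, ?_⟩, p, hp, he⟩
      · change x < pt x (r * b + g r)
        unfold pt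
        omega
      · change pt x (r * b + g r) ≤ x + h
        unfold pt
        omega
    · intro r hr r' hr' hh
      rw [mem_coe] at hr hr'
      simp only [pt] at hh
      have h8 : r * b + g r = r' * b + g r' := by omega
      have h9 := blk_lt (hg1 r hr) h8
      have h10 := blk_lt (hg1 r' hr') h8.symm
      omega
  omega

theorem main : ∃ κ K : ℝ, 0 < κ ∧ κ < 1 ∧ 1 ≤ K ∧ ∀ (D δ : ℝ), 1 ≤ D → 0 < δ → δ ≤ 1 → ∀ W : ℕ → ℕ, Grow κ D W →
    ∀ (Ω : Type) [MeasurableSpace Ω] (μ : Measure Ω) [IsProbabilityMeasure μ] (X : ℕ → Ω → ℕ),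
      (∀ p, Measurable (X p)) → iIndepFun X μ → ∀ p₀ : ℕ, Mv δ W p₀ μ X →
      ∀ᵐ ω ∂μ, ∀ᶠ x : ℕ in atTop, ∀ h : ℕ, K * (D ^ 2 / δ) * (Real.log x) ^ 2 ≤ h → h ≤ x →
        δ / (K * D ^ 2) * (h / Real.log x) ≤ EE (fun p ω => p + 2 * X p ω) x h ω := by
  obtain ⟨κ, η, hκ0, hκ1, hη, hdens⟩ := dens
  set K : ℝ := 16 * (64 / η + 1) with hK
  have hK1 : 1 ≤ K := by
    rw [hK]
    have : 0 < 64 / η := by positivity
    linarith
  refine ⟨κ, K, hκ0, hκ1, hK1, ?_⟩
  intro D δ hD hδ0 hδ1 W hW Ω _ μ _ X hX hind p₀ hlaw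
  obtain ⟨m₀, hm₀, hd⟩ := hdens D δ hD hδ0 hδ1 W hW 1 le_rfl p₀
  set c₀ : ℝ := η * δ / D ^ 2 with hc₀
  have hD0 : 0 < D := by linarith
  have hc0 : 0 < c₀ := by positivity
  set B : ℝ := 64 / c₀ + 1 with hB
  have hB1 : 1 ≤ B := by
    rw [hB]
    have : 0 < 64 / c₀ := by positivity
    linarith
  have hBK : 16 * B ≤ K * (D ^ 2 / δ) := by
    have h1 : 1 ≤ D ^ 2 / δ := by
      rw [le_div_iff₀ hδ0]
      nlinarith
    have h2 : 64 / c₀ = 64 / η * (D ^ 2 / δ) := by
      rw [hc₀]
      field_simp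
    rw [hB, hK, h2]
    nlinarith
  set ξ : ℕ → Ω → ℕ := fun p ω => p + 2 * X p ω with hξd
  have hξ : ∀ p, Measurable (ξ p) := fun p => (measurable_of_countable (fun i : ℕ => p + 2 * i)).comp (hX p)
  have hξi : iIndepFun ξ μ := hind.comp (fun p (i : ℕ) => p + 2 * i) (fun p => measurable_of_countable _)
  set b : ℕ → ℕ := fun x => ⌈B * Real.log x⌉₊ with hb
  set Hs : ℕ → Finset ℕ := fun x => (range (x + 1)).filter (fun h => Real.log x ≤ ((h / (2 * b x) : ℕ) : ℝ)) with hHs
  set Ts : ℕ → ℕ → Finset (Finset ℕ) := fun x h =>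
    (range (h / (2 * b x))).powerset.filter (fun T => h / (2 * b x) ≤ 2 * T.card) with hTs
  set s : ℕ → Set Ω := fun x => ⋃ h ∈ Hs x, ⋃ T ∈ Ts x h, Av ξ (PC (4 * x) p₀ 1 0) (JT x (b x) T) with hs
  have hlog : Tendsto (fun n : ℕ => Real.log (n : ℝ)) atTop atTop :=
    Real.tendsto_log_atTop.comp tendsto_natCast_atTop_atTop
  have hbound : ∀ᶠ x : ℕ in atTop, μ.real (s x) ≤ 1 / (x : ℝ) ^ 2 := by
    filter_upwards [eventually_ge_atTop (m₀ + 4), hlog.eventually_ge_atTop 1] with x hx hL1
    set L := Real.log x with hL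
    have hx0 : (0 : ℝ) < x := by exact_mod_cast (by omega : 0 < x)
    have hx4 : (4 : ℝ) ≤ x := by exact_mod_cast (by omega : 4 ≤ x)
    have hL0 : 0 < L := by linarith
    have hbr : B * L ≤ b x := Nat.le_ceil _
    have hbx : 0 < b x := Nat.ceil_pos.2 (by positivity)
    have hone : ∀ h ∈ Hs x, ∀ T ∈ Ts x h, μ.real (Av ξ (PC (4 * x) p₀ 1 0) (JT x (b x) T)) ≤
        Real.exp (-(16 * ((h / (2 * b x) : ℕ) : ℝ))) := by
      intro h hh T hT
      simp only [hHs, mem_filter, mem_range] at hh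
      simp only [hTs, mem_filter, mem_powerset] at hT
      set R := h / (2 * b x) with hR
      have hRb : 2 * (R * b x) ≤ h := by
        have := Nat.div_mul_le_self h (2 * b x)
        rw [← hR] at this
        calc 2 * (R * b x) = R * (2 * b x) := by ring
          _ ≤ h := this
      have hq := avoid_le μ hξ hξi (PC (4 * x) p₀ 1 0) (JT x (b x) T) (c₀ / (2 * L)) (by
        intro m hm
        unfold JT at hm
        rw [mem_image] at hm
        obtain ⟨⟨r, t⟩, hrt, rfl⟩ := hm
        rw [mem_product, mem_range] at hrt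
        have hr := mem_range.1 (hT.1 hrt.1)
        have h7 : r * b x + b x ≤ R * b x := by
          calc r * b x + b x = (r + 1) * b x := by ring
            _ ≤ R * b x := Nat.mul_le_mul_right (b x) hr
        have ht := hrt.2
        simp only at ht hr
        have hm1 : x < pt x (r * b x + t) := by unfold pt; omega
        have hm2 : pt x (r * b x + t) ≤ 2 * x := by unfold pt; omega
        have hm3 : Odd (pt x (r * b x + t)) := by
          rw [Nat.odd_iff]
          unfold pt
          omega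
        have h8 := hd (pt x (r * b x + t)) (by omega) hm3 (4 * x) (by omega) 0 (by norm_num) Ω μ X hlaw
        rw [Nat.cast_one, one_mul] at h8
        refine le_trans ?_ h8
        have h9 : (1 : ℝ) < pt x (r * b x + t) := by exact_mod_cast (by omega : 1 < pt x (r * b x + t))
        apply div_le_div_of_nonneg_left hc0.le (Real.log_pos h9)
        have h10 : Real.log (pt x (r * b x + t)) ≤ Real.log (2 * x) := by
          apply Real.log_le_log (by linarith)
          exact_mod_cast hm2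
        rw [Real.log_mul (by norm_num) hx0.ne'] at h10
        have := Real.log_two_lt_d9
        linarith)
      refine hq.trans ?_
      apply Real.exp_le_exp.2
      rw [neg_le_neg_iff, JT_card]
      push_cast
      have h1 : (R : ℝ) ≤ 2 * T.card := by exact_mod_cast hT.2
      have h2 : 64 ≤ B * c₀ := by
        rw [hB]
        have : 64 / c₀ * c₀ = 64 := by field_simp
        nlinarith
      have h3 : 32 ≤ (b x : ℝ) * (c₀ / (2 * L)) := by
        calc (32 : ℝ) ≤ B * c₀ / 2 := by linarith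
          _ = B * L * (c₀ / (2 * L)) := by field_simp
          _ ≤ b x * (c₀ / (2 * L)) := mul_le_mul_of_nonneg_right hbr (by positivity)
      have h4 : (0 : ℝ) ≤ T.card := Nat.cast_nonneg _
      calc 16 * (R : ℝ) ≤ T.card * 32 := by linarith
        _ ≤ T.card * (b x * (c₀ / (2 * L))) := mul_le_mul_of_nonneg_left h3 h4
        _ = _ := by ring
    have hh2 : ∀ h ∈ Hs x, μ.real (⋃ T ∈ Ts x h, Av ξ (PC (4 * x) p₀ 1 0) (JT x (b x) T)) ≤ 1 / (x : ℝ) ^ 4 := by
      intro h hh
      set R := h / (2 * b x) with hR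
      have hRL : L ≤ R := by
        have hh' := hh
        simp only [hHs, mem_filter, mem_range] at hh'
        exact hh'.2
      calc μ.real (⋃ T ∈ Ts x h, Av ξ (PC (4 * x) p₀ 1 0) (JT x (b x) T)) ≤
            ∑ T ∈ Ts x h, μ.real (Av ξ (PC (4 * x) p₀ 1 0) (JT x (b x) T)) := measureReal_biUnion_finset_le _ _
        _ ≤ ∑ _T ∈ Ts x h, Real.exp (-(16 * (R : ℝ))) := sum_le_sum fun T hT => hone h hh T hT
        _ = ((Ts x h).card : ℝ) * Real.exp (-(16 * (R : ℝ))) := by rw [sum_const, nsmul_eq_mul]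
        _ ≤ (2 : ℝ) ^ R * Real.exp (-(16 * (R : ℝ))) := by
            apply mul_le_mul_of_nonneg_right _ (Real.exp_pos _).le
            have h1 : (Ts x h).card ≤ (range R).powerset.card := card_le_card (filter_subset _ _)
            rw [card_powerset, card_range] at h1
            exact_mod_cast h1
        _ ≤ Real.exp (R : ℝ) * Real.exp (-(16 * (R : ℝ))) := by
            apply mul_le_mul_of_nonneg_right _ (Real.exp_pos _).le
            have h1 : (2 : ℝ) ≤ Real.exp 1 := by
              have := Real.add_one_le_exp (1 : ℝ)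
              linarith
            calc (2 : ℝ) ^ R ≤ (Real.exp 1) ^ R := pow_le_pow_left₀ (by norm_num) h1 R
              _ = Real.exp (R : ℝ) := by rw [← Real.exp_nat_mul, mul_one]
        _ = Real.exp (-(15 * (R : ℝ))) := by rw [← Real.exp_add]; congr 1; ring
        _ ≤ Real.exp (-(4 * L)) := Real.exp_le_exp.2 (by linarith)
        _ = 1 / (x : ℝ) ^ 4 := by
            have h1 : (x : ℝ) ^ 4 = Real.exp (4 * L) := by
              rw [hL, mul_comm, Real.exp_mul, Real.exp_log hx0]
              norm_num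
            rw [h1, one_div, Real.exp_neg]
    calc μ.real (s x) ≤ ∑ h ∈ Hs x, μ.real (⋃ T ∈ Ts x h, Av ξ (PC (4 * x) p₀ 1 0) (JT x (b x) T)) :=
          measureReal_biUnion_finset_le _ _
      _ ≤ ∑ _h ∈ Hs x, 1 / (x : ℝ) ^ 4 := sum_le_sum hh2
      _ = ((Hs x).card : ℝ) * (1 / (x : ℝ) ^ 4) := by rw [sum_const, nsmul_eq_mul]
      _ ≤ (x + 1) * (1 / (x : ℝ) ^ 4) := by
          apply mul_le_mul_of_nonneg_right _ (by positivity)
          have h1 : (Hs x).card ≤ (range (x + 1)).card := card_le_card (filter_subset _ _)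
          rw [card_range] at h1
          exact_mod_cast h1
      _ ≤ 1 / (x : ℝ) ^ 2 := by
          rw [mul_one_div, div_le_div_iff₀ (by positivity) (by positivity)]
          have : ((x : ℝ) + 1) ≤ x ^ 2 := by nlinarith
          calc ((x : ℝ) + 1) * x ^ 2 ≤ x ^ 2 * x ^ 2 := mul_le_mul_of_nonneg_right this (by positivity)
            _ = 1 * x ^ 4 := by ring
  have hbc := bc_sum μ s (fun N : ℕ => 1 / (N : ℝ) ^ 2) (fun n => by positivity)
    (Real.summable_one_div_nat_pow.2 (by norm_num)) hbound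
  filter_upwards [hbc] with ω hω
  filter_upwards [hω, hlog.eventually_ge_atTop 1, eventually_ge_atTop 1] with x hx hL1 hx1 h hh1 hh2
  set L := Real.log x with hL
  have hL0 : 0 < L := by linarith
  have hbx : 0 < b x := Nat.ceil_pos.2 (by positivity)
  have hbr : (b x : ℝ) ≤ 2 * B * L := by
    have h1 : (b x : ℝ) ≤ B * L + 1 := (Nat.ceil_lt_add_one (by positivity)).le
    nlinarith
  have hbr0 : (0 : ℝ) < b x := by exact_mod_cast hbx
  set R := h / (2 * b x) with hR
  have hh3 : 16 * B * L ^ 2 ≤ h := by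
    refine le_trans ?_ hh1
    exact mul_le_mul_of_nonneg_right hBK (sq_nonneg _)
  have hRr : (h : ℝ) / (2 * b x) - 1 ≤ R := by
    have h3 := Nat.lt_div_mul_add (a := h) (b := 2 * b x) (by omega)
    have h4 : (h : ℝ) < (R : ℝ) * (2 * b x) + 2 * b x := by exact_mod_cast h3
    rw [sub_le_iff_le_add, div_le_iff₀ (by positivity)]
    linarith
  have hRL : L ≤ R := by
    refine le_trans ?_ hRr
    rw [le_sub_iff_add_le, le_div_iff₀ (by positivity)]
    calc (L + 1) * (2 * (b x : ℝ)) ≤ (2 * L) * (2 * (2 * B * L)) := by gcongr; linarith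
      _ = 8 * B * L ^ 2 := by ring
      _ ≤ 16 * B * L ^ 2 := by
          have : 0 ≤ B * L ^ 2 := by positivity
          nlinarith
      _ ≤ h := hh3
  have hRh : (h : ℝ) / (4 * b x) ≤ R := by
    refine le_trans ?_ hRr
    have h1 : 1 ≤ (h : ℝ) / (4 * b x) := by
      rw [le_div_iff₀ (by positivity), one_mul]
      calc 4 * (b x : ℝ) ≤ 4 * (2 * B * L) := by linarith
        _ ≤ 16 * B * L ^ 2 := by nlinarith [mul_pos (by linarith : 0 < B) hL0]
        _ ≤ h := hh3
    have h2 : (h : ℝ) / (2 * b x) = 2 * (h / (4 * b x)) := by field_simp; ring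
    linarith
  have hcnt := count_of (ξ := ξ) (PC (4 * x) p₀ 1 0) (by
    intro p hp
    unfold PC at hp
    exact (mem_filter.1 hp).2.1) ω x (b x) R h (by
    have := Nat.div_mul_le_self h (2 * b x)
    rw [← hR] at this
    calc 2 * (R * b x) = R * (2 * b x) := by ring
      _ ≤ h := this) (by
    intro T hT1 hT2 hc
    apply hx
    simp only [hs, Set.mem_iUnion]
    refine ⟨h, ?_, T, ?_, hc⟩
    · simp only [hHs, mem_filter, mem_range]
      exact ⟨by omega, hRL⟩
    · simp only [hTs, mem_filter, mem_powerset]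
      exact ⟨hT1, hT2⟩)
  have hcr : (R : ℝ) ≤ 2 * EE ξ x h ω := by exact_mod_cast hcnt
  have h1 : (h : ℝ) / (8 * b x) ≤ EE ξ x h ω := by
    have h2 : (h : ℝ) / (8 * b x) = (h / (4 * b x)) / 2 := by field_simp; ring
    rw [h2]
    linarith
  refine le_trans ?_ h1
  have h2 : (h : ℝ) / (16 * B * L) ≤ h / (8 * b x) := by
    apply div_le_div_of_nonneg_left (Nat.cast_nonneg h) (by positivity)
    linarith
  refine le_trans ?_ h2
  have h3 : δ / (K * D ^ 2) * (h / L) = h / (K * (D ^ 2 / δ) * L) := by field_simp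
  rw [h3]
  apply div_le_div_of_nonneg_left (Nat.cast_nonneg h) (by positivity)
  exact mul_le_mul_of_nonneg_right hBK hL0.le

end Pool.Agent.R526.AD
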